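import Pool.Agent.H61.LQ.Main

set_option autoImplicit false

/-!
# `K₁` of group rings and the norms on `ℓ^p`, for all exponents

Let `κ_p = ((3/2)^(p-1) + 3^(p-1))^(1/p)`, so `κ_2 = 3 / √2`, `κ_p → 3`. An invertible matrix over
`RG` (any ring, any group) which is controlled by an integral matrix whose left multiplication has
norm less than `κ_p` on some `ℓ^p` and whose right multiplication has norm less than `κ_q` on some
`ℓ^q` comes from virtually cyclic subgroups; over `ℤΓ`, `Γ` torsion-free, it is zero in the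
Whitehead group. Conversely every class of `K₁(RG)` has, for all `p` at once, a representative with
both norms of its support pattern at most `κ + ε`, where `κ = κ_p` for `p ≥ 2` and `κ = κ_{p'}`
for `p ≤ 2`.
-/

namespace Pool.Agent.Results.MP_b6f35e_al.CriticalNormsAllExponents

open Matrix TH6.PF Pool.Agent.H61.LQ Pool.Agent.V1132.CN Pool.Agent.N510.LT

/-- There are diagonal matrices of group elements such that `dmU R u * A * (dmU R v)⁻¹` is a block
sum of invertible matrices over group rings of virtually cyclic subgroups. -/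
def IsBlockSum {R : Type} [Ring R] {G : Type} [Group G] {n : ℕ}
    (A : Matrix (Fin n) (Fin n) (MonoidAlgebra R G)) : Prop :=
  ∃ (ρ σ : Fin n → Fin n ⊕ Fin n) (u v : Fin n → G) (C : Fin n ⊕ Fin n → Subgroup G)
    (θ : ∀ a, Matrix {i // ρ i = a} {j // σ j = a} (MonoidAlgebra R (C a)))
    (η : ∀ a, Matrix {j // σ j = a} {i // ρ i = a} (MonoidAlgebra R (C a))),
    (∀ a, IsVC (C a)) ∧ (∀ a, θ a * η a = 1 ∧ η a * θ a = 1) ∧
    (dmU R u).val * A * (dmU R v)⁻¹.val = blockSum ρ σ C θ

/-- Each row and each column of `B` has at most three terms. -/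
def ThreeTerms {R : Type} [Ring R] {G : Type} {κ : Type} [Fintype κ]
    (B : Matrix κ κ (MonoidAlgebra R G)) : Prop :=
  (∀ i, ∑ j, (B i j).coeff.support.card ≤ 3) ∧ ∀ j, ∑ i, (B i j).coeff.support.card ≤ 3

theorem ab_pat1 {R : Type} [Ring R] {G : Type} [Group G] (x : MonoidAlgebra R G) :
    ab (pat1 x) = (x.coeff.support.card : ℝ) := by
  rw [ab_eq (pat1 x) x.coeff.support]
  · rw [Finset.sum_congr rfl (g := fun _ => (1 : ℝ))]
    · simp
    · intro g hg
      rw [coeff_pat1, ind_of_ne (Finsupp.mem_support_iff.1 hg)]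
      simp
  · intro g hg
    rw [Finsupp.mem_support_iff, coeff_pat1, ind_ne] at hg
    exact Finsupp.mem_support_iff.2 hg

theorem threeTerms_of {R : Type} [Ring R] {G : Type} [Group G] {κ : Type} [Fintype κ]
    (B : Matrix κ κ (MonoidAlgebra R G)) (h : RC (pat B) 3 3) : ThreeTerms B := by
  constructor
  · intro i
    have h1 := h.1 i
    simp only [pat, Matrix.map_apply, ab_pat1] at h1
    exact_mod_cast h1
  · intro j
    have h1 := h.2 j
    simp only [pat, Matrix.map_apply, ab_pat1] at h1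
    exact_mod_cast h1

/-- `A` comes from virtually cyclic subgroups. -/
def FromVC {R : Type} [Ring R] {G : Type} [Group G] {n : ℕ}
    (A : (Matrix (Fin n) (Fin n) (MonoidAlgebra R G))ˣ) : Prop :=
  A ∈ VCGen R G (Fin n) ∧ IsBlockSum A.val

/-- The support of `Q` contains that of `A`. -/
def Controls {R : Type} [Ring R] {G : Type} {n : ℕ} (Q : Matrix (Fin n) (Fin n) (MonoidAlgebra ℤ G))
    (A : Matrix (Fin n) (Fin n) (MonoidAlgebra R G)) : Prop :=
  ∀ i j g, (A i j).coeff g ≠ 0 → (Q i j).coeff g ≠ 0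

/-- `κ_P`, where `P` is the larger one of `p` and the conjugate exponent. -/
noncomputable def kapMax (p : ℝ) : ℝ := kap (max p (p / (p - 1)))

/-- For all `1 < p < ∞` both norms of the pattern of `B` on `ℓ^p` are at most `κ_P + ε`. -/
def AllNormsLE {R : Type} [Ring R] {G : Type} [Group G] {κ : Type} [Fintype κ]
    (B : Matrix κ κ (MonoidAlgebra R G)) (ε : ℝ) : Prop :=
  ∀ p : ℝ, 1 < p → LeftLE (pat B) p (kapMax p + ε) ∧ RightLE (pat B) p (kapMax p + ε)

/-- For some `m` and some `C` in the commutator subgroup, `diag(A, 1_m) * C` has coefficients in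
`S ∪ {0}`, at most three terms in each row and column, and both norms of its pattern are, for all
`1 < p < ∞`, at most `κ_P + ε`. -/
def HasRep {R : Type} [Ring R] {G : Type} [Group G] {n : ℕ} (S : Set R)
    (A : (Matrix (Fin n) (Fin n) (MonoidAlgebra R G))ˣ) (ε : ℝ) : Prop :=
  ∃ (m : ℕ) (C : (Matrix (Fin n ⊕ Fin m) (Fin n ⊕ Fin m) (MonoidAlgebra R G))ˣ),
    C ∈ commutator (Matrix (Fin n ⊕ Fin m) (Fin n ⊕ Fin m) (MonoidAlgebra R G))ˣ ∧
    CS S (fromBlocks A.val 0 0 1 * C.val) ∧ ThreeTerms (fromBlocks A.val 0 0 1 * C.val) ∧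
    AllNormsLE (fromBlocks A.val 0 0 1 * C.val) ε

/-- no torsion -/
def TorsionFree (Γ : Type) [Group Γ] : Prop := ∀ g : Γ, ∀ k : ℕ, 0 < k → g ^ k = 1 → g = 1

theorem result :
    -- all rings, all groups: small norms
    (∀ (R : Type) [Ring R] (G : Type) [Group G] (n : ℕ)
      (A : (Matrix (Fin n) (Fin n) (MonoidAlgebra R G))ˣ)
      (Q : Matrix (Fin n) (Fin n) (MonoidAlgebra ℤ G)), Controls Q A.val → Small Q → FromVC A) ∧
    -- it suffices to bound one norm, or both norms for one exponent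
    (∀ (G : Type) [Group G] (n : ℕ) (Q : Matrix (Fin n) (Fin n) (MonoidAlgebra ℤ G)) (p c : ℝ),
      1 < p → 0 ≤ c →
      (c < kap p → c < kap (p / (p - 1)) → LeftLE Q p c ∨ RightLE Q p c → Small Q) ∧
      (c < kapMax p → LeftLE Q p c → RightLE Q p c → Small Q)) ∧
    -- all rings, all groups: representatives which are good for all exponents
    (∀ (R : Type) [Ring R] [Nontrivial R] (S : Set R), Gens S → ∀ (G : Type) [Group G] (n : ℕ)
      (A : (Matrix (Fin n) (Fin n) (MonoidAlgebra R G))ˣ) (ε : ℝ), 0 < ε → HasRep S A ε) ∧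
    -- torsion-free groups and the integers: the Whitehead group
    (∀ (Γ : Type) [Group Γ], TorsionFree Γ →
      ∀ (n : ℕ) (A : (Matrix (Fin n) (Fin n) (MonoidAlgebra ℤ Γ))ˣ),
        (Small A.val → Trivial A) ∧
        ∀ p : ℝ, 1 < p → (Trivial A ∧ critp p A = 1) ∨ (¬ Trivial A ∧ critp p A = kapMax p)) := by
  refine ⟨?_, ?_, ?_, ?_⟩
  · intro R _ G _ n A Q hQ hS
    exact GR.below_noTripod A Q hQ hS.noTripod
  · intro G _ n Q p c hp hc0
    refine ⟨fun h1 h2 h => ?_, fun h1 hL hR => small_of_both hp hc0 h1 hL hR⟩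
    rcases h with h | h
    · exact small_of_left hp hc0 h1 h2 h
    · exact small_of_right hp hc0 h1 h2 h
  · intro R _ _ S hS G _ n A ε hε
    obtain ⟨m, C, hC, hCS, hN⟩ := reduction_lp_fin hS A (show 0 < ε / 3 by positivity)
    exact ⟨m, C, hC, hCS, threeTerms_of _ hN.1, fun p hp => near_all hε hN hp⟩
  · intro Γ _ htf n A
    refine ⟨trivial_of_Small htf A, fun p hp => ?_⟩
    by_cases h : Trivial A
    · exact Or.inl ⟨h, critp_trivial hp A h⟩
    · exact Or.inr ⟨h, critp_nontrivial htf hp A h⟩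

end Pool.Agent.Results.MP_b6f35e_al.CriticalNormsAllExponents
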