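import Pool.Agent.H52.SW.KV
import Pool.Agent.H52.SW.Dom

set_option autoImplicit false
set_option linter.unusedSectionVars false

/-! Hermitian and quadratic forms over arbitrary group rings whose support is dominated, outside of
the diagonal, by an integral self-adjoint matrix near a real diagonal matrix, and classes of
self-adjoint matrices in `K₁` of integral group rings modulo the virtually cyclic subgroups. -/

namespace Pool.Agent.Results.MP_b6f35e_al.SpectralWidth

open Matrix TH6.PF TH6.LF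

section defs

variable {G : Type} [Group G] {κ : Type}

/-- the adjoint (conjugate transpose) of a matrix over `ℤG`, for the involution `g ↦ g⁻¹` -/
noncomputable def adjoint {μ : Type} (A : Matrix κ μ (MonoidAlgebra ℤ G)) :
    Matrix μ κ (MonoidAlgebra ℤ G) :=
  Matrix.of fun j i => MonoidAlgebra.mapDomain (fun g => g⁻¹) (A i j)

/-- `A* = A` -/
def SelfAdjoint (A : Matrix κ κ (MonoidAlgebra ℤ G)) : Prop := adjoint A = A

/-- the squared norm in `ℓ²(G)` -/
noncomputable def sq (x : MonoidAlgebra ℝ G) : ℝ := ∑ g ∈ x.coeff.support, x.coeff g ^ 2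

/-- the quadratic form `⟨x A, x⟩` of `A` on the finitely supported row vectors `x` in `ℓ²(G)^κ` -/
noncomputable def form [Fintype κ] (A : Matrix κ κ (MonoidAlgebra ℤ G))
    (x : κ → MonoidAlgebra ℝ G) : ℝ :=
  ∑ j, ∑ g ∈ (x j).coeff.support,
    ((x ᵥ* A.map (MonoidAlgebra.mapRingHom G (Int.castRingHom ℝ))) j).coeff g * (x j).coeff g

/-- The self-adjoint operator of right multiplication by `A` on `ℓ²(G)^κ` has distance at most `c`
to the diagonal operator with the real diagonal entries `d j`. (For constant `d` this says that the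
spectrum lies in `[d - c, d + c]`.) -/
def WithinOfDiagonal [Fintype κ] (A : Matrix κ κ (MonoidAlgebra ℤ G)) (d : κ → ℝ) (c : ℝ) : Prop :=
  ∀ x : κ → MonoidAlgebra ℝ G, |form A x - ∑ j, d j * sq (x j)| ≤ c * ∑ j, sq (x j)

/-- There is an integral self-adjoint matrix `B` whose distance to some real diagonal matrix is less
than `3 / √2`, such that all coefficients of `ψ`, except for those of the neutral element in the
diagonal entries, are in the support of `B`. -/
def Dominated {R : Type} [Ring R] [Fintype κ] (ψ : Matrix κ κ (MonoidAlgebra R G)) : Prop :=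
  ∃ (B : Matrix κ κ (MonoidAlgebra ℤ G)) (d : κ → ℝ) (c : ℝ), SelfAdjoint B ∧
    c < 3 / Real.sqrt 2 ∧ WithinOfDiagonal B d c ∧
    ∀ i j g, ¬ (i = j ∧ g = 1) → (ψ i j).coeff g ≠ 0 → (B i j).coeff g ≠ 0

/-- Up to a diagonal change of basis by group elements `u i` the form with the matrix `ψ` is an
orthogonal sum of forms `θ a` over the group rings of virtually cyclic subgroups `C a`. The `θ a`
are `ε`-hermitian if `ψ` is; the `ε`-quadratic forms of the `θ a` are nonsingular if that of `ψ`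
is; the `θ a` are invertible if `ψ` is. -/
def SumFromVC {R : Type} [Ring R] [StarRing R] [Fintype κ] [DecidableEq κ] (w : G →* ℤˣ)
    (ψ : Matrix κ κ (MonoidAlgebra R G)) : Prop :=
  ∃ (ρ : κ → κ) (u : κ → G) (C : κ → Subgroup G)
    (θ : ∀ a, Matrix {i // ρ i = a} {i // ρ i = a} (MonoidAlgebra R (C a))),
    (∀ a, IsVC (C a)) ∧
    (dmU R u).val * ψ * sadj w (dmU R u).val = blockSum ρ ρ C θ ∧
    (∀ ε : ℤ, ψ = ε • sadj w ψ → ∀ a, θ a = ε • sadj (w.comp (C a).subtype) (θ a)) ∧
    (∀ ε : ℤ, IsUnit (ψ + ε • sadj w ψ) →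
      ∀ a, IsUnit (θ a + ε • sadj (w.comp (C a).subtype) (θ a))) ∧
    (IsUnit ψ → ∀ a, IsUnit (θ a))

/-- The class of `x` in `K₁(ℤG)` is in the subgroup generated by the images of `K₁(ℤC)` for the
virtually cyclic subgroups `C` of `G`. -/
def ClassFromVC [Fintype κ] [DecidableEq κ] (x : (Matrix κ κ (MonoidAlgebra ℤ G))ˣ) : Prop :=
  ∃ (μ : Type) (_ : Fintype μ) (_ : DecidableEq μ)
    (y : (Matrix (κ ⊕ μ) (κ ⊕ μ) (MonoidAlgebra ℤ G))ˣ),
    y.val = fromBlocks x.val 0 0 1 ∧ y ∈ commutator _ ⊔ VCGen ℤ G (κ ⊕ μ)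

/-- the block diagonal matrix -/
noncomputable def oplus {μ : Type} [Fintype κ] [DecidableEq κ] [Fintype μ] [DecidableEq μ]
    (a : (Matrix κ κ (MonoidAlgebra ℤ G))ˣ) (b : (Matrix μ μ (MonoidAlgebra ℤ G))ˣ) :
    (Matrix (κ ⊕ μ) (κ ⊕ μ) (MonoidAlgebra ℤ G))ˣ := Pool.Agent.H52.SW.blk a b

/-- the distance of the class of `A` to the real diagonal matrices, modulo the virtually cyclic
subgroups: the infimum of all `c ≥ 0` such that some self-adjoint invertible matrix `B` over `ℤG`,
whose class differs from that of `A` by one from virtually cyclic subgroups, is within `c` of a real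
diagonal matrix -/
noncomputable def diagDist [Fintype κ] [DecidableEq κ] (A : (Matrix κ κ (MonoidAlgebra ℤ G))ˣ) :
    ℝ :=
  sInf {c : ℝ | 0 ≤ c ∧ ∃ (μ : Type) (_ : Fintype μ) (_ : DecidableEq μ)
    (B : (Matrix μ μ (MonoidAlgebra ℤ G))ˣ) (d : μ → ℝ),
    SelfAdjoint B.val ∧ ClassFromVC (oplus A B⁻¹) ∧ WithinOfDiagonal B.val d c}

end defs

section aux

open TH57.Thr Pool.Agent.H52.SW

variable {G : Type} [Group G] {κ : Type} [Fintype κ] [DecidableEq κ]

theorem class_iff (x : (Matrix κ κ (MonoidAlgebra ℤ G))ˣ) : ClassFromVC x ↔ TV x := by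
  constructor
  · rintro ⟨μ, i1, i2, y, hy, h⟩
    refine ⟨μ, i1, i2, ?_⟩
    have h1 : Units.map (stm μ) x = y := Units.ext hy.symm
    rw [h1]
    exact h
  · rintro ⟨μ, i1, i2, h⟩
    exact ⟨μ, i1, i2, _, rfl, h⟩

theorem form_eq (A : Matrix κ κ (MonoidAlgebra ℤ G)) (x : κ → MonoidAlgebra ℝ G) :
    form A x = ip (x ᵥ* toReal A) x := by
  rw [ip_comm]
  unfold form ip
  rw [MonoidAlgebra.coeff_sum, Finsupp.finsetSum_apply]
  refine Finset.sum_congr rfl fun i _ => ?_
  rw [MonoidAlgebra.coeff_mul_apply_left, Finsupp.sum]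
  refine Finset.sum_congr rfl fun g _ => ?_
  rw [coeff_bar]
  simp [mul_comm, toReal]

theorem within_iff (A : Matrix κ κ (MonoidAlgebra ℤ G)) (d : κ → ℝ) (c : ℝ) :
    WithinOfDiagonal A d c ↔ NearDiag A d c := by
  unfold WithinOfDiagonal NearDiag
  simp only [form_eq]
  rfl

theorem sq_bound {c : ℝ} (hc : 3 / Real.sqrt 2 < c) : 0 < c ∧ 9 / 2 < c ^ 2 := by
  have hr : 0 < Real.sqrt 2 := Real.sqrt_pos.2 two_pos
  have hr2 : Real.sqrt 2 ^ 2 = 2 := Real.sq_sqrt two_pos.le
  have hsq : (3 / Real.sqrt 2) ^ 2 = 9 / 2 := by rw [div_pow, hr2]; norm_num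
  have hpos : 0 < 3 / Real.sqrt 2 := by positivity
  refine ⟨hpos.trans hc, ?_⟩
  rw [← hsq]
  exact pow_lt_pow_left₀ hc hpos.le two_ne_zero

theorem exists_small (A : (Matrix κ κ (MonoidAlgebra ℤ G))ˣ) (hA : SelfAdjoint A.val) (c : ℝ)
    (hc : 3 / Real.sqrt 2 < c) :
    ∃ (μ : Type) (_ : Fintype μ) (_ : DecidableEq μ) (T : (Matrix μ μ (MonoidAlgebra ℤ G))ˣ),
      SelfAdjoint T.val ∧ ClassFromVC (oplus A T⁻¹) ∧ WithinOfDiagonal T.val 0 c := by
  obtain ⟨h0, h1⟩ := sq_bound hc
  obtain ⟨μ, i1, i2, T, h2, h3, h4⟩ := reduction_vc A hA c h0 h1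
  exact ⟨μ, i1, i2, T, h2, (class_iff _).2 h4, (within_iff _ _ _).2 h3⟩

theorem class_of_near (A : (Matrix κ κ (MonoidAlgebra ℤ G))ˣ) (hA : SelfAdjoint A.val)
    (d : κ → ℝ) (c : ℝ) (hc : c < 3 / Real.sqrt 2) (h : WithinOfDiagonal A.val d c) :
    ClassFromVC A :=
  (class_iff A).2 (TV_of_gen A (dom_gen A A.val hA d c hc ((within_iff _ _ _).1 h)
    fun _ _ _ _ h => h))

theorem selfAdjoint_one : SelfAdjoint (1 : Matrix κ κ (MonoidAlgebra ℤ G)) := adj_one

theorem form_one (x : κ → MonoidAlgebra ℝ G) :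
    form (1 : Matrix κ κ (MonoidAlgebra ℤ G)) x = ∑ j, sq (x j) := by
  rw [form_eq, toReal_one, Matrix.vecMul_one, ip_self]
  rfl

theorem diagDist_zero (A : (Matrix κ κ (MonoidAlgebra ℤ G))ˣ) (h : ClassFromVC A) :
    diagDist A = 0 := by
  unfold diagDist
  refine le_antisymm (csInf_le ⟨0, fun _ hc => hc.1⟩ ?_) (Real.sInf_nonneg fun _ hc => hc.1)
  refine ⟨le_rfl, Unit, inferInstance, inferInstance, 1, fun _ => 1, selfAdjoint_one, ?_,
    fun x => ?_⟩
  · exact (class_iff _).2 (TV_blk _ _ ((class_iff A).1 h) (TV_inv _ TV_one))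
  · rw [Units.val_one, form_one]
    simp

theorem diagDist_of_not (A : (Matrix κ κ (MonoidAlgebra ℤ G))ˣ) (hA : SelfAdjoint A.val)
    (h : ¬ ClassFromVC A) : diagDist A = 3 / Real.sqrt 2 := by
  unfold diagDist
  have hpos : 0 < 3 / Real.sqrt 2 := by positivity
  apply le_antisymm
  · refine le_of_forall_gt_imp_ge_of_dense fun c hc => ?_
    obtain ⟨μ, i1, i2, T, h1, h2, h3⟩ := exists_small A hA c hc
    exact csInf_le ⟨0, fun _ hc => hc.1⟩ ⟨(hpos.trans hc).le, μ, i1, i2, T, 0, h1, h2, h3⟩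
  · obtain ⟨μ, i1, i2, T, h1, h2, h3⟩ := exists_small A hA (3 / Real.sqrt 2 + 1) (by linarith)
    refine le_csInf ⟨_, (by linarith), μ, i1, i2, T, 0, h1, h2, h3⟩ ?_
    rintro c ⟨_, μ', i3, i4, B, d, h4, h5, h6⟩
    by_contra hc
    push Not at hc
    refine h ((class_iff A).2 (TV_blk_right A B⁻¹ ((class_iff _).1 h5) (TV_inv _ ?_)))
    exact (class_iff B).1 (class_of_near B h4 d c hc h6)

end aux

/-- **Forms and `K₁`-classes near the real diagonal matrices, for all groups.** (1) Let `R` be a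
ring with involution, `G` a group with an orientation character `w`. Every matrix over `RG` which is
dominated (outside of the diagonal) by an integral self-adjoint matrix at distance less than
`3 / √2` from the real diagonal matrices is an orthogonal sum of forms from virtually cyclic
subgroups; it is a product of matrices over the group rings of virtually cyclic subgroups if it is
invertible. (2) For every group `G` the class in `K₁(ℤG)` of a self-adjoint invertible matrix `A`
over `ℤG` either comes from virtually cyclic subgroups, or all self-adjoint representatives of the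
class of `A`, modulo those from virtually cyclic subgroups, have distance at least `3 / √2` to the
real diagonal matrices, and `3 / √2` is the infimum of these distances. -/
theorem result :
    (∀ (R : Type) [Ring R] [StarRing R] (G : Type) [Group G] (w : G →* ℤˣ) (κ : Type) [Fintype κ]
      [DecidableEq κ] (ψ : Matrix κ κ (MonoidAlgebra R G)), Dominated ψ →
        SumFromVC w ψ ∧ ∀ x : (Matrix κ κ (MonoidAlgebra R G))ˣ, x.val = ψ → x ∈ VCGen R G κ) ∧
    (∀ (G : Type) [Group G] (κ : Type) [Fintype κ] [DecidableEq κ]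
      (A : (Matrix κ κ (MonoidAlgebra ℤ G))ˣ), SelfAdjoint A.val →
        (ClassFromVC A ∧ diagDist A = 0) ∨ (¬ ClassFromVC A ∧ diagDist A = 3 / Real.sqrt 2)) := by
  refine ⟨?_, ?_⟩
  · rintro R _ _ G _ w κ _ _ ψ ⟨B, d, c, hB, hc, hN, hsup⟩
    refine ⟨Pool.Agent.H52.SW.dom_forms w ψ B hB d c hc ((within_iff _ _ _).1 hN) hsup, ?_⟩
    rintro x rfl
    exact Pool.Agent.H52.SW.dom_gen x B hB d c hc ((within_iff _ _ _).1 hN) hsup
  · intro G _ κ _ _ A hA
    by_cases h : ClassFromVC A
    · exact Or.inl ⟨h, diagDist_zero A h⟩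
    · exact Or.inr ⟨h, diagDist_of_not A hA h⟩

end Pool.Agent.Results.MP_b6f35e_al.SpectralWidth
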