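import Pool.Agent.H1.FH.Over2

/-!
# The assembly map in low degrees: trees, colimits, products and extensions

Let `ℱ` be the class of the groups `G` such that for all regular rings `R` (noetherian, finitely
generated modules have finite resolutions by finitely generated projective modules; not necessarily
commutative) and all subgroups `H` of the groups `G × ℤⁿ`

* `K₀(R) → K₀(RH)` is bijective,
* `K₁(RH)` is generated by the classes of the matrices over `R` and of the matrices `1 - p + p h` for
  idempotent matrices `p` over `R` and elements `h` of `H`.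

For torsion-free groups and regular rings these are the predictions of the Farrell-Jones conjecture in
the degrees `≤ 1` (in degree `1` its surjectivity): the image of `H₁(BH; K(R))` in `K₁(RH)` is
generated by `K₁(R)` and by the classes of the matrices `1 - p + p h`, and the negative `K`-groups of
`RH` are zero since the rings of Laurent polynomials over regular rings are regular.

The class is closed under embeddings and directed colimits with arbitrary structure maps. The first
main result is about arbitrary actions of a group `G` on trees without inversions. It reduces the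
question whether `G` is in `ℱ` to the stabilisers of the vertices and to subgroups `⟨Q, g⟩` which
are generated by the pointwise stabiliser `Q` of a segment of a ray, which can be chosen as long as one
likes, and one element `g` which translates this segment along the ray by `d` steps. These subgroups
need not be considered if `Q` is trivial or if the rings `RQ` are regular coherent. There are no
conditions on the stabilisers of the edges besides that they are in `ℱ`.

The fibered class consists of the groups `B` such that a group `G` with a homomorphism to `B` is in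
`ℱ` as soon as the preimages of the *cyclic* subgroups of `B` are in `ℱ`. It contains the cyclic groups
and the torsion-free nilpotent groups, its torsion-free members are in `ℱ`, and it is closed under
embeddings, actions on trees, products of torsion-free groups, extensions in which only the preimages
of cyclic subgroups have to be considered, torsion-free central extensions and directed colimits with
torsion-free kernels. If a torsion-free group `G` acts on a tree and has a homomorphism to a group in
the fibered class which is injective on the stabilisers of the edges (or of long segments) then `G` is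
in `ℱ` as soon as the stabilisers of the vertices are in `ℱ`.

The proof for homomorphisms to `ℤ²` is an algebraic version of the method of Farrell and Hsiang which
works directly with invertible matrices over the group rings.
-/

set_option autoImplicit false

namespace Pool.Agent.Results.MP_b6f35e_al.TreesInLowDegrees

open Matrix

/-- An idempotent matrix over `R`. It stands for the finitely generated projective left module which
is its row space; all finitely generated projective modules are of this form. -/
structure IdemMatrix (R : Type) [Ring R] where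
  /-- the size -/
  size : ℕ
  /-- the matrix -/
  mat : Matrix (Fin size) (Fin size) R
  idem : mat * mat = mat

section idem

variable {R S : Type} [Ring R] [Ring S]

/-- The projective modules of the idempotent matrices `p` and `q` are isomorphic. -/
def IdemMatrix.Iso (p q : IdemMatrix R) : Prop :=
  ∃ (u : Matrix (Fin p.size) (Fin q.size) R) (w : Matrix (Fin q.size) (Fin p.size) R),
    u * w = p.mat ∧ w * u = q.mat

/-- The direct sum: the block diagonal matrix with the blocks `p` and `q`. -/
def IdemMatrix.sum (p q : IdemMatrix R) : IdemMatrix R where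
  size := p.size + q.size
  mat := (fromBlocks p.mat 0 0 q.mat).submatrix finSumFinEquiv.symm finSumFinEquiv.symm
  idem := by
    rw [Matrix.submatrix_mul_equiv, Pool.Agent.H1.KK.blocks_idem p.idem q.idem]

/-- The image under a ring homomorphism, applied to the entries. -/
def IdemMatrix.map (φ : R →+* S) (p : IdemMatrix R) : IdemMatrix S where
  size := p.size
  mat := p.mat.map φ
  idem := by rw [← Matrix.map_mul, p.idem]

/-- The equation `[p] - [q] = [p'] - [q']` in the Grothendieck group `K₀(R)` of the isomorphism
classes of finitely generated projective modules. -/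
def K0Eq (p q p' q' : IdemMatrix R) : Prop :=
  ∃ r : IdemMatrix R, ((p.sum q').sum r).Iso ((p'.sum q).sum r)

/-- The map `K₀(R) → K₀(S)` induced by the ring homomorphism is surjective and injective. -/
def K0Bijective (φ : R →+* S) : Prop :=
  (∀ P Q : IdemMatrix S, ∃ p q : IdemMatrix R, K0Eq (p.map φ) (q.map φ) P Q) ∧
  ∀ p q p' q' : IdemMatrix R, K0Eq (p.map φ) (q.map φ) (p'.map φ) (q'.map φ) → K0Eq p q p' q'

end idem

/-- The canonical homomorphism `R → RG`. -/
noncomputable def coefficients (R : Type) [Ring R] (G : Type) [Group G] :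
    R →+* MonoidAlgebra R G := MonoidAlgebra.singleOneRingHom

/-- The module `M` has a resolution of length at most `n` by finitely generated projective modules,
all of which except perhaps the last one are free. -/
def HasResolution (R : Type) [Ring R] : ∀ (_ : ℕ) (M : Type) [AddCommGroup M] [Module R M], Prop
  | 0, M, _, _ => Module.Finite R M ∧ Module.Projective R M
  | n + 1, M, _, _ => ∃ (ι : Type) (_ : Fintype ι) (f : (ι → R) →ₗ[R] M),
      Function.Surjective f ∧ HasResolution R n (LinearMap.ker f)

/-- The ring `R` is (left) regular: left noetherian, and every finitely generated left module has a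
finite resolution by finitely generated projective modules. -/
def Regular (R : Type) [Ring R] : Prop :=
  IsNoetherianRing R ∧
  ∀ (M : Type) [AddCommGroup M] [Module R M] [Module.Finite R M], ∃ n, HasResolution R n M

/-- The ring `R` is (left) regular coherent: every finitely presented left module has a finite
resolution by finitely generated projective modules. -/
def RegularCoherent (R : Type) [Ring R] : Prop :=
  ∀ (M : Type) [AddCommGroup M] [Module R M] [Module.FinitePresentation R M],
    ∃ n, HasResolution R n M

/-- The block diagonal matrix with the blocks `x` and the identity matrix of size `m`. -/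
def stabilise {S κ : Type} [Ring S] [Fintype κ] [DecidableEq κ] (m : ℕ) (x : (Matrix κ κ S)ˣ) :
    (Matrix (κ ⊕ Fin m) (κ ⊕ Fin m) S)ˣ where
  val := fromBlocks x.val 0 0 1
  inv := fromBlocks (x⁻¹).val 0 0 1
  val_inv := by rw [fromBlocks_multiply]; simp
  inv_val := by rw [fromBlocks_multiply]; simp

/-- The matrix `x` over `RG` is a matrix over `R`. -/
def IsConstant {R G κ : Type} [Ring R] [Group G] [Fintype κ] [DecidableEq κ]
    (x : (Matrix κ κ (MonoidAlgebra R G))ˣ) : Prop :=
  ∃ a : (Matrix κ κ R)ˣ, x.val = a.val.map (coefficients R G)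

/-- The matrix `x` over `RG` is `1 - p + p g` for an idempotent matrix `p` over `R` and an element `g`
of `G`. -/
def IsTwist {R G κ : Type} [Ring R] [Group G] [Fintype κ] [DecidableEq κ]
    (x : (Matrix κ κ (MonoidAlgebra R G))ˣ) : Prop :=
  ∃ (p : Matrix κ κ R) (g : G), p * p = p ∧
    x.val = 1 - p.map (coefficients R G) + p.map (coefficients R G) *
      (Matrix.diagonal fun _ => MonoidAlgebra.single g 1 : Matrix κ κ (MonoidAlgebra R G))

/-- The group `K₁(RG)` is generated by the classes of the matrices over `R` and the classes of the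
matrices `1 - p + p g`: after stabilisation each invertible matrix is in the subgroup which is
generated by commutators and by such matrices. -/
def K1Generated (R : Type) [Ring R] (G : Type) [Group G] : Prop :=
  ∀ (n : ℕ) (x : (Matrix (Fin n) (Fin n) (MonoidAlgebra R G))ˣ), ∃ m : ℕ,
    stabilise m x ∈ commutator (Matrix (Fin n ⊕ Fin m) (Fin n ⊕ Fin m) (MonoidAlgebra R G))ˣ ⊔
      Subgroup.closure {y | IsConstant y ∨ IsTwist y}

/-- The class `ℱ` of the groups `G` such that for all regular rings `R` and all subgroups `H` of the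
groups `G × ℤⁿ` the map `K₀(R) → K₀(RH)` is bijective and `K₁(RH)` is generated by the classes of the
matrices over `R` and of the matrices `1 - p + p h`. -/
def ClassF (G : Type) [Group G] : Prop :=
  ∀ (n : ℕ) (H : Subgroup (G × Multiplicative (Fin n → ℤ))) (R : Type) [Ring R], Regular R →
    K0Bijective (coefficients R H) ∧ K1Generated R H

/-- The fibered class: each group `G` with a homomorphism `f` to `B` such that the preimages of the
cyclic subgroups of `B` are in `ℱ` is itself in `ℱ`. -/
def FiberedF (B : Type) [Group B] : Prop :=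
  ∀ (G : Type) [Group G] (f : G →* B),
    (∀ C : Subgroup B, IsCyclic C → ClassF (C.comap f)) → ClassF G

/-- The group is torsion-free. -/
def TorsionFree (G : Type) [Group G] : Prop :=
  ∀ g : G, IsOfFinOrder g → g = 1

/-- The group `G` is the directed colimit of the groups `H i`, `i` in `I`, along the homomorphisms
`f i j`, which need not be injective; the maps to the colimit are the homomorphisms `φ i`. -/
structure DirectedColimit {I : Type} [Preorder I] (H : I → Type) [∀ i, Group (H i)]
    (f : ∀ i j, i ≤ j → H i →* H j) {G : Type} [Group G] (φ : ∀ i, H i →* G) : Prop where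
  nonempty : Nonempty I
  directed : ∀ i j : I, ∃ l, i ≤ l ∧ j ≤ l
  trans : ∀ (i j l : I) (h : i ≤ j) (h' : j ≤ l) (x : H i),
    f j l h' (f i j h x) = f i l (h.trans h') x
  comp : ∀ (i j : I) (h : i ≤ j) (x : H i), φ j (f i j h x) = φ i x
  surj : ∀ g : G, ∃ (i : I) (x : H i), φ i x = g
  inj : ∀ (i : I) (x : H i), φ i x = 1 → ∃ (j : I) (h : i ≤ j), f i j h x = 1

/-- A ray: an infinite path without backtracking. -/
def IsRay {V : Type} (T : SimpleGraph V) (p : ℕ → V) : Prop :=
  (∀ i, T.Adj (p i) (p (i + 1))) ∧ ∀ i, p (i + 2) ≠ p i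

/-- The pointwise stabiliser of the initial segment `p 0, …, p n` of a ray. -/
def segmentStabilizer (G : Type) [Group G] {V : Type} [MulAction G V] (p : ℕ → V) (n : ℕ) :
    Subgroup G :=
  fixingSubgroup G (p '' Set.Iic n)

/-- The action of `G` on the vertices of the tree `T` is by graph automorphisms and without
inversions. -/
structure TreeAction (G : Type) [Group G] {V : Type} [MulAction G V] (T : SimpleGraph V) :
    Prop where
  tree : T.IsTree
  adj : ∀ (g : G) (v w : V), T.Adj v w → T.Adj (g • v) (g • w)
  noInversion : ∀ (g : G) (v w : V), T.Adj v w → ¬ (g • v = w ∧ g • w = v)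

/-- The group rings `RH` are regular coherent for all regular rings `R`. -/
def CoherentGroup (H : Type) [Group H] : Prop :=
  ∀ (R : Type) [Ring R], Regular R → RegularCoherent (MonoidAlgebra R H)

/-- The ray `p` and the number `n` satisfy the condition on translations by `d` steps for the
property `W` of groups: for all `g` with `g (p (i + d)) = p i` for `i ≤ n` the subgroup generated by
the pointwise stabiliser of `p 0, …, p n` and `g` has the property. -/
def TranslationsIn (W : ∀ (G : Type) [Group G], Prop) (G : Type) [Group G] {V : Type}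
    [MulAction G V] (p : ℕ → V) (n d : ℕ) : Prop :=
  ∀ g : G, (∀ i ≤ n, g • p (i + d) = p i) →
    W (Subgroup.closure ((segmentStabilizer G p n : Set G) ∪ {g}))

open Pool.Agent.H1.MV Pool.Agent.H1.MK Pool.Agent.H1.KK Pool.Agent.H1.FH

section proofs

variable {R S : Type} [Ring R] [Ring S]

theorem iso_iff (p q : IdemMatrix R) : p.Iso q ↔ Nonempty (Mo p.mat ≃ₗ[R] Mo q.mat) := by
  constructor
  · rintro ⟨u, w, h1, h2⟩
    exact ⟨moUw u w h1 h2 p.idem q.idem⟩
  · rintro ⟨f⟩
    exact mo_uw p.idem q.idem f

/-- reindexing -/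
def moRe {m n : Type} [Fintype m] [DecidableEq m] [Fintype n] [DecidableEq n] (e : n ≃ m)
    {M : Matrix m m R} (hM : M * M = M) : Mo (M.submatrix e e) ≃ₗ[R] Mo M :=
  moUw (M.submatrix e id) (M.submatrix id e)
    (by
      have := Matrix.submatrix_mul_equiv M M e (Equiv.refl m) e
      rw [hM] at this
      exact this)
    (by
      rw [Matrix.submatrix_mul_equiv, hM, Matrix.submatrix_id_id])
    (by rw [Matrix.submatrix_mul_equiv, hM]) hM

/-- the module of the direct sum -/
def moSum (p q : IdemMatrix R) : Mo (p.sum q).mat ≃ₗ[R] (Mo p.mat × Mo q.mat) :=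
  (moRe finSumFinEquiv.symm (blocks_idem p.idem q.idem)).trans (moBlocks p.mat q.mat)

/-- the module of a sum of three matrices -/
def moSum3 (p q r : IdemMatrix R) :
    Mo ((p.sum q).sum r).mat ≃ₗ[R] ((Mo p.mat × Mo q.mat) × Mo r.mat) :=
  (moSum (p.sum q) r).trans (LinearEquiv.prodCongr (moSum p q) (LinearEquiv.refl R _))

theorem k0Eq_iff (p q p' q' : IdemMatrix R) : K0Eq p q p' q' ↔ ∃ r : IdemMatrix R,
    Nonempty (((Mo p.mat × Mo q'.mat) × Mo r.mat) ≃ₗ[R] ((Mo p'.mat × Mo q.mat) × Mo r.mat)) := by
  constructor
  · rintro ⟨r, h⟩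
    rw [iso_iff] at h
    obtain ⟨f⟩ := h
    exact ⟨r, ⟨((moSum3 p q' r).symm.trans f).trans (moSum3 p' q r)⟩⟩
  · rintro ⟨r, ⟨f⟩⟩
    refine ⟨r, ?_⟩
    rw [iso_iff]
    exact ⟨((moSum3 p q' r).trans f).trans (moSum3 p' q r).symm⟩

/-- the identity matrix -/
def idMat (R : Type) [Ring R] (n : ℕ) : IdemMatrix R := ⟨n, 1, Matrix.one_mul _⟩

/-- an idempotent matrix with arbitrary index set -/
noncomputable def ofIdem {ν : Type} [Fintype ν] [DecidableEq ν] (p : Matrix ν ν R)
    (hp : p * p = p) : IdemMatrix R where
  size := Fintype.card ν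
  mat := p.submatrix (Fintype.equivFin ν).symm (Fintype.equivFin ν).symm
  idem := by rw [Matrix.submatrix_mul_equiv, hp]

theorem sum_map (φ : R →+* S) (p q : IdemMatrix R) :
    (p.sum q).map φ = (p.map φ).sum (q.map φ) := by
  unfold IdemMatrix.sum IdemMatrix.map
  congr 1
  exact congrArg (fun M => M.submatrix finSumFinEquiv.symm finSumFinEquiv.symm)
    (blocks_map φ p.mat q.mat)

theorem Iso.map {p q : IdemMatrix R} (φ : R →+* S) (h : p.Iso q) : (p.map φ).Iso (q.map φ) := by
  obtain ⟨u, w, h1, h2⟩ := h
  refine ⟨u.map φ, w.map φ, ?_, ?_⟩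
  · change u.map φ * w.map φ = p.mat.map φ
    rw [← Matrix.map_mul, h1]
  · change w.map φ * u.map φ = q.mat.map φ
    rw [← Matrix.map_mul, h2]

theorem k0Eq_map (φ : R →+* S) {p q p' q' : IdemMatrix R} (h : K0Eq p q p' q') :
    K0Eq (p.map φ) (q.map φ) (p'.map φ) (q'.map φ) := by
  obtain ⟨r, h⟩ := h
  refine ⟨r.map φ, ?_⟩
  have h1 := Iso.map φ h
  rwa [sum_map, sum_map, sum_map, sum_map] at h1

theorem map_map' {Q : Type} [Ring Q] (φ : R →+* S) (ρ : S →+* Q) (p : IdemMatrix R) :
    (p.map φ).map ρ = p.map (ρ.comp φ) := rfl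

theorem map_id' (p : IdemMatrix R) : p.map (RingHom.id R) = p := by
  unfold IdemMatrix.map
  congr 1

/-- permutations of factors -/
def perm4 (A B C D : Type) [AddCommGroup A] [Module R A] [AddCommGroup B] [Module R B]
    [AddCommGroup C] [Module R C] [AddCommGroup D] [Module R D] :
    ((A × B) × (C × D)) ≃ₗ[R] ((A × D) × (C × B)) where
  toFun x := ((x.1.1, x.2.2), (x.2.1, x.1.2))
  map_add' _ _ := rfl
  map_smul' _ _ := rfl
  invFun x := ((x.1.1, x.2.2), (x.2.1, x.1.2))
  left_inv _ := rfl
  right_inv _ := rfl

/-- the surjectivity -/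
theorem surj_of_allSI {φ : R →+* S} (h : AllSI φ) (P Q : IdemMatrix S) :
    ∃ p q : IdemMatrix R, K0Eq (p.map φ) (q.map φ) P Q := by
  have i1 := mo_finite P.mat
  have i2 := mo_projective P.idem
  have i3 := mo_finite Q.mat
  have i4 := mo_projective Q.idem
  obtain ⟨ν, _, _, p₁, hp₁, a, b, ⟨f⟩⟩ := h (Mo P.mat)
  obtain ⟨μ, _, _, q₁, hq₁, c, d, ⟨g⟩⟩ := h (Mo Q.mat)
  -- `f : P × S^a ≃ p₁ × S^b` and `g : Q × S^c ≃ q₁ × S^d`
  let p : IdemMatrix R := ((ofIdem p₁ hp₁).sum (idMat R b)).sum (idMat R c)
  let q : IdemMatrix R := ((ofIdem q₁ hq₁).sum (idMat R d)).sum (idMat R a)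
  have one : ∀ n : ℕ, Nonempty (Mo ((idMat R n).map φ).mat ≃ₗ[S] (Fin n → S)) := by
    intro n
    have h1 : ((idMat R n).map φ).mat = 1 := Matrix.map_one _ (map_zero _) (map_one _)
    rw [h1]
    exact ⟨moOne S (Fin n)⟩
  have sm : ∀ (ν : Type) [Fintype ν] [DecidableEq ν] (p₁ : Matrix ν ν R) (hp₁ : p₁ * p₁ = p₁)
      (b c : ℕ), Nonempty (Mo ((((ofIdem p₁ hp₁).sum (idMat R b)).sum (idMat R c)).map φ).mat ≃ₗ[S]
        ((Mo (p₁.map φ) × (Fin b → S)) × (Fin c → S))) := by
    intro ν _ _ p₁ hp₁ b c
    rw [sum_map, sum_map]
    obtain ⟨e1⟩ := one b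
    obtain ⟨e2⟩ := one c
    have e3 : Mo ((ofIdem p₁ hp₁).map φ).mat ≃ₗ[S] Mo (p₁.map φ) := by
      have h1 : ((ofIdem p₁ hp₁).map φ).mat =
          (p₁.map φ).submatrix (Fintype.equivFin ν).symm (Fintype.equivFin ν).symm := rfl
      rw [h1]
      exact moRe _ (map_idem φ hp₁)
    exact ⟨(moSum3 _ _ _).trans (LinearEquiv.prodCongr (LinearEquiv.prodCongr e3 e1) e2)⟩
  obtain ⟨ep⟩ := sm ν p₁ hp₁ b c
  obtain ⟨eq⟩ := sm μ q₁ hq₁ d a
  refine ⟨p, q, (k0Eq_iff _ _ _ _).2 ⟨idMat S 0, ⟨?_⟩⟩⟩
  -- `(p × Q) ≃ (P × q)`
  have e1 : (Mo (p.map φ).mat × Mo Q.mat) ≃ₗ[S] ((Mo P.mat × (Fin a → S)) ×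
      (Mo Q.mat × (Fin c → S))) :=
    (LinearEquiv.prodCongr (ep.trans (LinearEquiv.prodCongr f.symm
      (LinearEquiv.refl S (Fin c → S)))) (LinearEquiv.refl S (Mo Q.mat))).trans
      ((LinearEquiv.prodAssoc S _ _ _).trans (LinearEquiv.prodCongr (LinearEquiv.refl S _)
        (LinearEquiv.prodComm S _ _)))
  have e2 : ((Mo P.mat × (Fin a → S)) × (Mo Q.mat × (Fin c → S))) ≃ₗ[S]
      (Mo P.mat × Mo (q.map φ).mat) :=
    (LinearEquiv.prodCongr (LinearEquiv.refl S _) g).trans
      ((LinearEquiv.prodAssoc S _ _ _).trans (LinearEquiv.prodCongr (LinearEquiv.refl S (Mo P.mat))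
        ((LinearEquiv.prodComm S _ _).trans eq.symm)))
  exact LinearEquiv.prodCongr (e1.trans e2) (LinearEquiv.refl S _)

theorem k0Bijective_of_allSI {φ : R →+* S} {ρ : S →+* R} (hρ : ρ.comp φ = RingHom.id R)
    (h : AllSI φ) : K0Bijective φ := by
  refine ⟨surj_of_allSI h, ?_⟩
  intro p q p' q' h1
  have h2 := k0Eq_map ρ h1
  rwa [map_map', map_map', map_map', map_map', hρ, map_id', map_id', map_id', map_id'] at h2

theorem allSI_of_k0Bijective {φ : R →+* S} (h : K0Bijective φ) : AllSI φ := by
  apply AllSI.of_mo
  intro n P hP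
  obtain ⟨p, q, h1⟩ := h.1 ⟨n, P, hP⟩ (idMat S 0)
  rw [k0Eq_iff] at h1
  obtain ⟨r, ⟨f⟩⟩ := h1
  have g0 : ∀ p : IdemMatrix R, SI φ (Mo (p.map φ).mat) := fun p =>
    ⟨Fin p.size, inferInstance, inferInstance, p.mat, p.idem, SE.refl _⟩
  have g1 : SI φ (Mo (idMat S 0).mat) := by
    have h2 : (idMat S 0).mat = ((1 : Matrix (Fin 0) (Fin 0) R).map φ) := by
      ext i
      exact i.elim0
    exact ⟨Fin 0, inferInstance, inferInstance, 1, Matrix.one_mul _, by rw [h2]; exact SE.refl _⟩
  -- add the complement of `r`
  have e1 : (((Mo (p.map φ).mat × Mo (idMat S 0).mat) × Mo r.mat) × Mo (1 - r.mat)) ≃ₗ[S]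
      (((Mo P × Mo (q.map φ).mat) × Mo r.mat) × Mo (1 - r.mat)) :=
    LinearEquiv.prodCongr f (LinearEquiv.refl S _)
  have e2 : ∀ (A : Type) [AddCommGroup A] [Module S A],
      Nonempty (((A × Mo r.mat) × Mo (1 - r.mat)) ≃ₗ[S] (A × (Fin r.size → S))) :=
    fun A _ _ => ⟨(LinearEquiv.prodAssoc S _ _ _).trans
      (LinearEquiv.prodCongr (LinearEquiv.refl S A) (dec r.mat r.idem).symm)⟩
  obtain ⟨e3⟩ := e2 (Mo (p.map φ).mat × Mo (idMat S 0).mat)
  obtain ⟨e4⟩ := e2 (Mo P × Mo (q.map φ).mat)
  have s1 : SI φ ((Mo P × Mo (q.map φ).mat) × (Fin r.size → S)) :=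
    (((g0 p).prod g1).prod SI.of_free).iso ((e3.symm.trans e1).trans e4)
  have s2 : SI φ ((Mo (q.map φ).mat × (Fin r.size → S)) × Mo P) :=
    s1.iso ((LinearEquiv.prodAssoc S _ _ _).trans (LinearEquiv.prodComm S _ _))
  exact SI.of_prod ((g0 q).prod SI.of_free) s2

theorem k0Bijective_iff (k : Type) [Ring k] (H : Type) [Group H] :
    K0Bijective (coefficients k H) ↔ AllSI (io k H) := by
  constructor
  · exact allSI_of_k0Bijective
  · refine k0Bijective_of_allSI (ρ := aug k H) ?_
    exact RingHom.ext fun c => aug_io c

end proofs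

theorem hasResolution_iff {R : Type} [Ring R] {n : ℕ} : ∀ {M : Type} [AddCommGroup M] [Module R M],
    HasResolution R n M ↔ FPD R n M := by
  induction n with
  | zero =>
    intro M _ _
    exact Iff.rfl
  | succ n ih =>
    intro M _ _
    constructor
    · rintro ⟨ι, i, f, hf, hk⟩
      exact ⟨ι, i, f, hf, ih.1 hk⟩
    · rintro ⟨ι, i, f, hf, hk⟩
      exact ⟨ι, i, f, hf, ih.2 hk⟩

theorem regularCoherent_nice {R : Type} [Ring R] (h : RegularCoherent R) : Nice R := by
  apply Pool.Agent.H1.MV.RegularCoherent.nice
  intro M _ _ _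
  obtain ⟨d, hd⟩ := h M
  exact ⟨d, hasResolution_iff.1 hd⟩

theorem regular_iff (k : Type) [Ring k] : Regular k ↔ Reg k := by
  constructor
  · rintro ⟨h1, h2⟩
    refine ⟨h1, nice_of_fpd ?_⟩
    intro M _ _ _
    obtain ⟨n, hn⟩ := h2 M
    exact ⟨n, hasResolution_iff.1 hn⟩
  · intro h
    have := h.noeth
    refine ⟨h.noeth, ?_⟩
    intro M _ _ _
    obtain ⟨n, hn⟩ := fpd_of_nice h.nice M
    exact ⟨n, hasResolution_iff.2 hn⟩

theorem stabilise_eq {S κ : Type} [Ring S] [Fintype κ] [DecidableEq κ] (m : ℕ)
    (x : (Matrix κ κ S)ˣ) :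
    stabilise m x = Units.map (TH57.Thr.stm (Fin m)) x := Units.ext rfl

theorem k1_iff (k : Type) [Ring k] (H : Type) [Group H] : K1Generated k H ↔ A1 k H := by
  constructor
  · intro h κ _ _ x
    have h1 : (genK (S1 k H)).car (Fin (Fintype.card κ))
        (Units.map (TH57.Thr.re (Fintype.equivFin κ).symm) x) := by
      rw [genK_fin]
      obtain ⟨m, hm⟩ := h _ (Units.map (TH57.Thr.re (Fintype.equivFin κ).symm) x)
      rw [stabilise_eq] at hm
      exact ⟨m, hm⟩
    have h2 := (genK (S1 k H)).re (Fintype.equivFin κ) _ h1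
    convert h2 using 1
    apply Units.ext
    ext1 i j
    change x.val i j = x.val ((Fintype.equivFin κ).symm (Fintype.equivFin κ i))
      ((Fintype.equivFin κ).symm (Fintype.equivFin κ j))
    rw [Equiv.symm_apply_apply, Equiv.symm_apply_apply]
  · intro h n x
    obtain ⟨m, hm⟩ := (genK_fin (S1 k H)).1 (h (Fin n) x)
    refine ⟨m, ?_⟩
    rw [stabilise_eq]
    exact hm

theorem f_iff (G : Type) [Group G] : ClassF G ↔
    St (fun G _ => ∀ (k : Type) [Ring k], Reg k → AllSI (io k G) ∧ A1 k G) G :=
  ⟨fun h n H k _ hk => ⟨(k0Bijective_iff k H).1 (h n H k ((regular_iff k).2 hk)).1,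
      (k1_iff k H).1 (h n H k ((regular_iff k).2 hk)).2⟩,
    fun h n H k _ hk => ⟨(k0Bijective_iff k H).2 (h n H k ((regular_iff k).1 hk)).1,
      (k1_iff k H).2 (h n H k ((regular_iff k).1 hk)).2⟩⟩

theorem v_iff (B : Type) [Group B] : FiberedF B ↔
    Fy (St (fun G _ => ∀ (k : Type) [Ring k], Reg k → AllSI (io k G) ∧ A1 k G)) B := by
  constructor
  · intro h G _ f hf
    exact (f_iff G).1 (h G f fun A hA => (f_iff _).2 (hf A hA))
  · intro h G _ f hf
    exact (f_iff G).2 (h G f fun A hA => (f_iff _).1 (hf A hA))

theorem tf_iff (G : Type) [Group G] : TorsionFree G ↔ TF G := by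
  constructor
  · intro h x n hn hx
    exact h x (isOfFinOrder_iff_pow_eq_one.2 ⟨n, hn, hx⟩)
  · intro h x hx
    obtain ⟨n, hn, hx⟩ := isOfFinOrder_iff_pow_eq_one.1 hx
    exact h x n hn hx

theorem colim_iff {I : Type} [Preorder I] {H : I → Type} [∀ i, Group (H i)]
    {f : ∀ i j, i ≤ j → H i →* H j} {G : Type} [Group G] {φ : ∀ i, H i →* G}
    (h : DirectedColimit H f φ) : DC H f φ :=
  ⟨h.nonempty, h.directed, h.trans, h.comp, h.surj, h.inj⟩

theorem segmentStabilizer_eq (G : Type) [Group G] {V : Type} [MulAction G V] (p : ℕ → V) (n : ℕ) :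
    segmentStabilizer G p n = Fx G n p := by
  ext g
  unfold segmentStabilizer
  rw [mem_fixingSubgroup_iff]
  constructor
  · intro h i hi
    exact h _ ⟨i, hi, rfl⟩
  · rintro h _ ⟨i, hi, rfl⟩
    exact h i hi

/-- **The assembly map in low degrees: trees, colimits, products and extensions.** Let `ℱ` be the
class of the groups `G` such that for all regular rings `R` and all subgroups `H` of the groups
`G × ℤⁿ` the map `K₀(R) → K₀(RH)` is bijective and `K₁(RH)` is generated by the classes of the matrices
over `R` and of the matrices `1 - p + p h` for idempotent matrices `p` over `R` and elements `h` of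
`H`. The fibered class consists of the groups `B` such that each group `G` with a homomorphism `f` to
`B` for which the preimages of the cyclic subgroups of `B` are in `ℱ` is itself in `ℱ`.

(1) The class `ℱ` is closed under embeddings and directed colimits with arbitrary structure maps.

(2) Let `G` act on a tree `T` by graph automorphisms and without inversions. Then `G` is in `ℱ` if
and only if the stabilisers of the vertices are in `ℱ` and for each ray `p` and each `d > 0` there
is `n` such that the pointwise stabiliser `Q` of `p 0, …, p n` is trivial, or the rings `RQ` are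
regular coherent for all regular rings `R`, or for all elements `g` of `G` with `g (p (i + d)) = p i`
for `i ≤ n` the subgroup generated by `Q` and `g` is in `ℱ`.

(3) Cyclic groups and torsion-free nilpotent groups are in the fibered class. Torsion-free groups in
the fibered class are in `ℱ`. If `A` is in `ℱ` and `B` is torsion-free and in the fibered class then
`A × B` is in `ℱ`. The fibered class is closed under embeddings; products of torsion-free groups;
directed colimits `G` of groups `H i` such that the kernels of the homomorphisms `H i → G` are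
torsion-free; extensions: if `f : B → L` is a homomorphism such that `L` and the preimages of the cyclic
subgroups of `L` are in the fibered class then so is `B`; central extensions: if `B` is torsion-free and
`f : B → L` is a homomorphism with central kernel to a group in the fibered class then `B` is in the
fibered class.

(4) Let `G` act on a tree `T` by graph automorphisms and without inversions. Then `G` is in the
fibered class if and only if the stabilisers of the vertices are in this class and for each ray `p` and
each `d > 0` there is `n` such that for all elements `g` of `G` with `g (p (i + d)) = p i` for `i ≤ n`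
the subgroup generated by the pointwise stabiliser of `p 0, …, p n` and `g` is in this class.

(5) Let `G` be torsion-free and let it act on a tree `T` by graph automorphisms and without inversions.
Let `f` be a homomorphism from `G` to a group in the fibered class such that for each ray `p` there is
`n` such that `f` is injective on the pointwise stabiliser of `p 0, …, p n`. Then `G` is in `ℱ` (in the
fibered class) if and only if the stabilisers of the vertices are in `ℱ` (in the fibered class).

(6) Let `f` be a homomorphism from `G` to a group `B` in the fibered class such that the group rings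
`R[ker f]` are regular coherent for all regular rings `R` and the preimages of the finite cyclic
subgroups of `B` are in `ℱ`. Then `G` is in `ℱ`. -/
theorem result :
    ((∀ (G H : Type) [Group G] [Group H] (f : G →* H), Function.Injective f →
        ClassF H → ClassF G) ∧
      (∀ (I : Type) [Preorder I] (H : I → Type) [∀ i, Group (H i)]
        (f : ∀ i j, i ≤ j → H i →* H j) (G : Type) [Group G] (φ : ∀ i, H i →* G),
        DirectedColimit H f φ → (∀ i, ClassF (H i)) → ClassF G)) ∧
    (∀ (G V : Type) [Group G] [MulAction G V] (T : SimpleGraph V), TreeAction G T →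
      (ClassF G ↔
        (∀ v : V, ClassF (MulAction.stabilizer G v)) ∧
        ∀ p : ℕ → V, IsRay T p → ∀ d : ℕ, 0 < d → ∃ n,
          segmentStabilizer G p n = ⊥ ∨
          CoherentGroup (segmentStabilizer G p n) ∨ TranslationsIn ClassF G p n d)) ∧
    ((∀ (G : Type) [Group G], IsCyclic G → FiberedF G) ∧
      (∀ (G : Type) [Group G], Group.IsNilpotent G → TorsionFree G → FiberedF G) ∧
      (∀ (G : Type) [Group G], FiberedF G → TorsionFree G → ClassF G) ∧
      (∀ (A B : Type) [Group A] [Group B], ClassF A → FiberedF B → TorsionFree B →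
        ClassF (A × B)) ∧
      (∀ (G H : Type) [Group G] [Group H] (f : G →* H), Function.Injective f →
        FiberedF H → FiberedF G) ∧
      (∀ (A B : Type) [Group A] [Group B], FiberedF A → TorsionFree A → FiberedF B →
        TorsionFree B → FiberedF (A × B)) ∧
      (∀ (I : Type) [Preorder I] (H : I → Type) [∀ i, Group (H i)]
        (f : ∀ i j, i ≤ j → H i →* H j) (G : Type) [Group G] (φ : ∀ i, H i →* G),
        DirectedColimit H f φ → (∀ i : I, TorsionFree (φ i).ker) → (∀ i, FiberedF (H i)) →
        FiberedF G) ∧
      (∀ (B L : Type) [Group B] [Group L] (f : B →* L), FiberedF L →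
        (∀ C : Subgroup L, IsCyclic C → FiberedF (C.comap f)) → FiberedF B) ∧
      (∀ (B L : Type) [Group B] [Group L] (f : B →* L), f.ker ≤ Subgroup.center B →
        TorsionFree B → FiberedF L → FiberedF B)) ∧
    (∀ (G V : Type) [Group G] [MulAction G V] (T : SimpleGraph V), TreeAction G T →
      (FiberedF G ↔
        (∀ v : V, FiberedF (MulAction.stabilizer G v)) ∧
        ∀ p : ℕ → V, IsRay T p → ∀ d : ℕ, 0 < d → ∃ n, TranslationsIn FiberedF G p n d)) ∧
    (∀ (G V : Type) [Group G] [MulAction G V] (T : SimpleGraph V), TreeAction G T →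
      TorsionFree G → ∀ (B : Type) [Group B] (f : G →* B), FiberedF B →
      (∀ p : ℕ → V, IsRay T p → ∃ n, ∀ g ∈ segmentStabilizer G p n, f g = 1 → g = 1) →
      ((ClassF G ↔ ∀ v : V, ClassF (MulAction.stabilizer G v)) ∧
        (FiberedF G ↔ ∀ v : V, FiberedF (MulAction.stabilizer G v)))) ∧
    (∀ (G B : Type) [Group G] [Group B] (f : G →* B), FiberedF B →
      CoherentGroup f.ker → (∀ C : Subgroup B, IsCyclic C → Finite C → ClassF (C.comap f)) →
      ClassF G) := by
  have hB := base_k1 rcls_reg
  have hBP := basep_k1 rcls_reg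
  have hW := hB.tcls
  have hP := hBP.tclsp
  have subW : ∀ (G H : Type) [Group G] [Group H] (f : G →* H), Function.Injective f →
      ClassF H → ClassF G := fun G H _ _ f hf h => (f_iff G).2 (hW.inj G H f hf ((f_iff H).1 h))
  have subV : ∀ (G H : Type) [Group G] [Group H] (f : G →* H), Function.Injective f →
      FiberedF H → FiberedF G :=
    fun G H _ _ f hf h => (v_iff G).2 (hP.fy_inj f hf ((v_iff H).1 h))
  refine ⟨⟨subW, ?_⟩, ?_, ⟨?_, ?_, ?_, ?_, subV, ?_, ?_, ?_, ?_⟩, ?_, ?_, ?_⟩
  · intro I _ H _ f G _ φ h hA
    exact (f_iff _).2 (hW.colim I H f G φ (colim_iff h) fun i => (f_iff _).1 (hA i))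
  · rintro G V _ _ T ⟨hT, hact, hinv⟩
    constructor
    · intro h
      have hs : ∀ S : Subgroup G, ClassF S := fun S => subW S G S.subtype S.subtype_injective h
      refine ⟨fun v => hs _, ?_⟩
      intro p _ d _
      exact ⟨0, Or.inr (Or.inr fun g _ => hs _)⟩
    · rintro ⟨hV, hm⟩
      rw [f_iff]
      refine hB.st_tree hT hact hinv (fun v => (f_iff _).1 (hV v)) ?_
      intro p h1 h2 d hd
      obtain ⟨n, hn⟩ := hm p ⟨h1, h2⟩ d hd
      refine ⟨n, ?_⟩
      unfold TranslationsIn at hn
      rw [segmentStabilizer_eq] at hn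
      rcases hn with hn | hn | hn
      · exact Or.inl hn
      · exact Or.inr (Or.inl fun m => nice_zn rcls_reg m fun k _ hk =>
          regularCoherent_nice (hn k ((regular_iff k).2 hk)))
      · exact Or.inr (Or.inr fun g hg => (f_iff _).1 (hn g hg))
  · intro G _ h
    exact (v_iff G).2 (hP.fy_cyc h)
  · intro G _ h1 h2
    exact (v_iff G).2 (hP.fy_nilpotent ((tf_iff G).1 h2))
  · intro G _ h h2
    exact (f_iff G).2 (hP.fy_self ((v_iff G).1 h) ((tf_iff G).1 h2))
  · intro A B _ _ hA hB' h2
    exact (f_iff _).2 (hP.fy_prodW ((f_iff A).1 hA) ((v_iff B).1 hB') ((tf_iff B).1 h2))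
  · intro A B _ _ hA h1 hB' h2
    exact (v_iff _).2 (hP.fy_prod ((v_iff A).1 hA) ((tf_iff A).1 h1) ((v_iff B).1 hB')
      ((tf_iff B).1 h2))
  · intro I _ H _ f G _ φ h htf hA
    refine (v_iff _).2 (hP.fy_colim (colim_iff h) ?_ fun i => (v_iff _).1 (hA i))
    intro i x n hn hx hφ
    exact congrArg Subtype.val ((tf_iff _).1 (htf i) ⟨x, MonoidHom.mem_ker.2 hφ⟩ n hn
      (Subtype.ext hx))
  · intro B L _ _ f hL hA
    exact (v_iff _).2 (hP.fy_ext f ((v_iff L).1 hL) fun A h => (v_iff _).1 (hA A h))
  · intro B L _ _ f hf h1 hL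
    exact (v_iff _).2 (hP.fy_central ((tf_iff B).1 h1) f hf ((v_iff L).1 hL))
  · rintro G V _ _ T ⟨hT, hact, hinv⟩
    constructor
    · intro h
      have hs : ∀ S : Subgroup G, FiberedF S := fun S => subV S G S.subtype S.subtype_injective h
      exact ⟨fun v => hs _, fun p _ d _ => ⟨0, fun g _ => hs _⟩⟩
    · rintro ⟨hV, hm⟩
      rw [v_iff]
      refine hP.fy_tree hT hact hinv (fun v => (v_iff _).1 (hV v)) ?_
      intro p h1 h2 d hd
      obtain ⟨n, hn⟩ := hm p ⟨h1, h2⟩ d hd
      refine ⟨n, ?_⟩
      unfold TranslationsIn at hn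
      rw [segmentStabilizer_eq] at hn
      exact fun g hg => (v_iff _).1 (hn g hg)
  · rintro G V _ _ T ⟨hT, hact, hinv⟩ htf B _ f hVB hf
    have hf' : ∀ p : ℕ → V, (∀ i, T.Adj (p i) (p (i + 1))) → (∀ i, p (i + 2) ≠ p i) →
        ∃ n, ∀ x ∈ Fx G n p, f x = 1 → x = 1 := by
      intro p h1 h2
      obtain ⟨n, hn⟩ := hf p ⟨h1, h2⟩
      rw [segmentStabilizer_eq] at hn
      exact ⟨n, hn⟩
    constructor
    · constructor
      · intro h v
        exact subW _ G (MulAction.stabilizer G v).subtype (Subgroup.subtype_injective _) h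
      · intro h
        exact (f_iff _).2 (hP.ovr ((v_iff B).1 hVB) hT hact hinv (fun v => (f_iff _).1 (h v))
          ((tf_iff G).1 htf) f hf')
    · constructor
      · intro h v
        exact subV _ G (MulAction.stabilizer G v).subtype (Subgroup.subtype_injective _) h
      · intro h
        exact (v_iff _).2 (hP.fy_ovr ((v_iff B).1 hVB) hT hact hinv (fun v => (v_iff _).1 (h v))
          ((tf_iff G).1 htf) f hf')
  · intro G B _ _ f hVB hN hfin
    exact (f_iff _).2 (hBP.nice_ker ((v_iff B).1 hVB) f
      (fun m => nice_zn rcls_reg m fun k _ hk =>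
        regularCoherent_nice (hN k ((regular_iff k).2 hk)))
      fun C h1 h2 => (f_iff _).1 (hfin C h1 h2))

end Pool.Agent.Results.MP_b6f35e_al.TreesInLowDegrees
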